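import Mathlib.Tactic.LinearCombination
import Mathlib.Topology.Sheaves.Presheaf
import Mathlib.Data.Int.Star
import Mathlib.Algebra.Order.Ring.Star
import Mathlib.Tactic.Bound
import Mathlib.Algebra.Order.Star.Real
import Mathlib.NumberTheory.Real.Irrational
import Mathlib.Tactic.Algebra.Basic

/-!
A real number all of whose convergent denominators are perfect squares.
-/

namespace Pool.Agent.MP_ba281e_nt

/-- `v 0 = 1`, `v 1 = 2`, `v (j+2) = v (j+1)^2 + v j`. -/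
def v : ℕ → ℕ
  | 0 => 1
  | 1 => 2
  | j + 2 => v (j + 1) ^ 2 + v j

/-- numerators -/
def p : ℕ → ℤ
  | 0 => 0
  | 1 => 1
  | j + 2 => ((v (j + 1) : ℤ) ^ 2 + 2 * v j) * p (j + 1) + p j

/-- denominators -/
def q (j : ℕ) : ℤ := (v j : ℤ) ^ 2

lemma v_succ_succ (j : ℕ) : v (j + 2) = v (j + 1) ^ 2 + v j := by rw [v]

lemma p_succ_succ (j : ℕ) : p (j + 2) = ((v (j + 1) : ℤ) ^ 2 + 2 * v j) * p (j + 1) + p j := by
  rw [p]

lemma q_succ_succ (j : ℕ) : q (j + 2) = ((v (j + 1) : ℤ) ^ 2 + 2 * v j) * q (j + 1) + q j := by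
  simp only [q, v_succ_succ]; push_cast; ring

lemma v_pos_lt (j : ℕ) : 0 < v j ∧ v j < v (j + 1) := by
  induction j with
  | zero => simp [v]
  | succ j ih =>
    refine ⟨by omega, ?_⟩
    rw [v_succ_succ]
    nlinarith [ih.1, ih.2]

lemma v_pos (j : ℕ) : 0 < v j := (v_pos_lt j).1

lemma v_strictMono : StrictMono v := strictMono_nat_of_lt_succ fun j => (v_pos_lt j).2

lemma v_succ_le (j : ℕ) : v (j + 1) ≤ 2 * v j ^ 2 := by
  cases j with
  | zero => simp [v]
  | succ j =>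
    rw [v_succ_succ]
    have := v_pos_lt j
    nlinarith [this.1, this.2]

lemma q_pos (j : ℕ) : 0 < q j := by
  have := v_pos j
  simp only [q]; positivity

lemma q_succ_le (j : ℕ) : q (j + 1) ≤ 4 * q j ^ 2 := by
  have h : (v (j + 1) : ℤ) ≤ 2 * (v j : ℤ) ^ 2 := by exact_mod_cast v_succ_le j
  have h0 : (0 : ℤ) ≤ v (j + 1) := by positivity
  simp only [q]
  nlinarith

lemma two_q_le (j : ℕ) : 2 * q j ≤ q (j + 2) := by
  rw [q_succ_succ]
  have h1 := q_pos j
  have h2 := q_pos (j + 1)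
  have h3 : (v j : ℤ) < v (j + 1) := by exact_mod_cast (v_pos_lt j).2
  have h4 : (0 : ℤ) < v j := by exact_mod_cast v_pos j
  have h5 : q j ≤ q (j + 1) := by simp only [q]; nlinarith
  have h6 : (1 : ℤ) ≤ (v (j + 1) : ℤ) ^ 2 + 2 * v j := by nlinarith
  nlinarith

lemma det (j : ℕ) : p (j + 1) * q j - p j * q (j + 1) = (-1) ^ j := by
  induction j with
  | zero => simp [p, q, v]
  | succ j ih =>
    rw [p_succ_succ, q_succ_succ, pow_succ (-1 : ℤ) j, ← ih]; ring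

lemma delta_nonneg (j i : ℕ) :
    0 ≤ (-1) ^ j * (q j * p (j + i) - p j * q (j + i)) ∧
      0 ≤ (-1) ^ j * (q j * p (j + i + 1) - p j * q (j + i + 1)) := by
  induction i with
  | zero =>
    refine ⟨by simp [mul_comm], ?_⟩
    have h := det j
    have : q j * p (j + 0 + 1) - p j * q (j + 0 + 1) = (-1) ^ j := by
      rw [← h]; simp only [Nat.add_zero]; ring
    rw [this, ← mul_pow]; simp
  | succ i ih =>
    refine ⟨ih.2, ?_⟩
    have e : j + (i + 1) + 1 = (j + i) + 2 := by ring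
    rw [e, p_succ_succ, q_succ_succ]
    have hA : (0 : ℤ) ≤ (v (j + i + 1) : ℤ) ^ 2 + 2 * v (j + i) := by positivity
    have := mul_nonneg hA ih.2
    nlinarith [ih.1]

lemma delta_nonneg' {j i : ℕ} (h : j ≤ i) : 0 ≤ (-1) ^ j * (q j * p i - p j * q i) := by
  obtain ⟨k, rfl⟩ := Nat.exists_eq_add_of_le h
  exact (delta_nonneg j k).1

lemma even_le_odd {i j : ℕ} (hi : Even i) (hj : Odd j) :
    (p i : ℝ) / q i ≤ (p j : ℝ) / q j := by
  have hqi : (0 : ℝ) < q i := by exact_mod_cast q_pos i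
  have hqj : (0 : ℝ) < q j := by exact_mod_cast q_pos j
  rw [div_le_div_iff₀ hqi hqj]
  have : p i * q j ≤ p j * q i := by
    rcases le_total i j with h | h
    · have := delta_nonneg' h
      rw [hi.neg_one_pow] at this
      linarith
    · have := delta_nonneg' h
      rw [hj.neg_one_pow] at this
      linarith
  exact_mod_cast this

/-- the number -/
noncomputable def alpha : ℝ := sSup {x : ℝ | ∃ i, Even i ∧ x = (p i : ℝ) / q i}

lemma sign_nonneg (j : ℕ) : 0 ≤ (-1 : ℝ) ^ j * (q j * alpha - p j) := by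
  have hqj : (0 : ℝ) < q j := by exact_mod_cast q_pos j
  have hb : BddAbove {x : ℝ | ∃ i, Even i ∧ x = (p i : ℝ) / q i} := by
    refine ⟨(p 1 : ℝ) / q 1, ?_⟩
    rintro x ⟨i, hi, rfl⟩
    exact even_le_odd hi odd_one
  rcases Nat.even_or_odd j with hj | hj
  · have : (p j : ℝ) / q j ≤ alpha := le_csSup hb ⟨j, hj, rfl⟩
    rw [div_le_iff₀ hqj] at this
    rw [hj.neg_one_pow]; linarith
  · have : alpha ≤ (p j : ℝ) / q j := by
      refine csSup_le ⟨_, 0, Even.zero, rfl⟩ ?_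
      rintro x ⟨i, hi, rfl⟩
      exact even_le_odd hi hj
    rw [le_div_iff₀ hqj] at this
    rw [hj.neg_one_pow]; linarith

/-- signed error -/
noncomputable def E (j : ℕ) : ℝ := (-1 : ℝ) ^ j * (q j * alpha - p j)

lemma E_nonneg (j : ℕ) : 0 ≤ E j := sign_nonneg j

lemma E_rel (j : ℕ) : (q (j + 1) : ℝ) * E j + q j * E (j + 1) = 1 := by
  have h : ((p (j + 1) * q j - p j * q (j + 1) : ℤ) : ℝ) = ((-1 : ℤ) ^ j : ℤ) := by rw [det]
  push_cast at h
  have h2 : ((-1 : ℝ) ^ j) * (-1) ^ j = 1 := by rw [← mul_pow]; simp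
  simp only [E, pow_succ]
  linear_combination ((-1 : ℝ) ^ j) * h + h2

lemma E_le (j : ℕ) : (q (j + 1) : ℝ) * E j ≤ 1 := by
  have h := E_rel j
  have hqj : (0 : ℝ) < q j := by exact_mod_cast q_pos j
  nlinarith [mul_nonneg hqj.le (E_nonneg (j + 1))]

lemma E_ge (j : ℕ) : 1 ≤ 2 * (q (j + 1) : ℝ) * E j := by
  have h := E_rel j
  have h1 := E_le (j + 1)
  have h2 : (2 : ℝ) * q j ≤ q (j + 2) := by exact_mod_cast two_q_le j
  have h3 := mul_le_mul_of_nonneg_right h2 (E_nonneg (j + 1))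
  nlinarith

lemma abs_err (j : ℕ) : |(q j : ℝ) * alpha - p j| = E j := by
  have h := E_nonneg j
  rcases Nat.even_or_odd j with hj | hj
  · simp only [E, hj.neg_one_pow, one_mul] at h ⊢
    exact abs_of_nonneg h
  · simp only [E, hj.neg_one_pow] at h ⊢
    rw [abs_of_nonpos (by linarith)]; ring

/-- best approximation property -/
lemma best_approx (j : ℕ) (a b : ℤ) (hb : 0 < b) (hbq : b < q (j + 1)) :
    E j ≤ |(b : ℝ) * alpha - a| := by
  have hd := det j
  have h2 : ((-1 : ℤ) ^ j) * (-1) ^ j = 1 := by rw [← mul_pow]; simp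
  set s : ℤ := (-1) ^ j * (b * p (j + 1) - a * q (j + 1)) with hs
  set t : ℤ := (-1) ^ j * (a * q j - b * p j) with ht
  have hb' : b = s * q j + t * q (j + 1) := by
    rw [hs, ht]; linear_combination (-b) * h2 - ((-1) ^ j * b) * hd
  have ha' : a = s * p j + t * p (j + 1) := by
    rw [hs, ht]; linear_combination (-a) * h2 - ((-1) ^ j * a) * hd
  have hq0 := q_pos j
  have hq1 := q_pos (j + 1)
  have h2r : ((-1 : ℝ) ^ j) * (-1) ^ j = 1 := by rw [← mul_pow]; simp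
  have key : (-1 : ℝ) ^ j * ((b : ℝ) * alpha - a) = s * E j - t * E (j + 1) := by
    have hb'' : (b : ℝ) = s * q j + t * q (j + 1) := by exact_mod_cast hb'
    have ha'' : (a : ℝ) = s * p j + t * p (j + 1) := by exact_mod_cast ha'
    simp only [E, pow_succ]
    rw [hb'', ha'']; ring
  have habs : |(b : ℝ) * alpha - a| = |(s : ℝ) * E j - t * E (j + 1)| := by
    rw [← key, abs_mul, abs_pow]; simp
  rw [habs]
  have e0 := E_nonneg j
  have e1 := E_nonneg (j + 1)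
  rcases le_or_gt t 0 with h | h
  · have hs1 : 1 ≤ s := by
      by_contra hc
      have : s ≤ 0 := by omega
      nlinarith [mul_nonneg (neg_nonneg.2 this) hq0.le, mul_nonneg (neg_nonneg.2 h) hq1.le]
    have hs1' : (1 : ℝ) ≤ s := by exact_mod_cast hs1
    have ht' : (t : ℝ) ≤ 0 := by exact_mod_cast h
    refine le_trans ?_ (le_abs_self _)
    nlinarith [mul_nonneg (neg_nonneg.2 ht') e1]
  · have hs1 : s ≤ -1 := by
      by_contra hc
      have h0 : 0 ≤ s := by omega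
      have h1 : 1 ≤ t := h
      nlinarith [mul_nonneg h0 hq0.le]
    have hs1' : (s : ℝ) ≤ -1 := by exact_mod_cast hs1
    have ht' : (0 : ℝ) ≤ t := by exact_mod_cast h.le
    refine le_trans ?_ (neg_le_abs _)
    nlinarith [mul_nonneg ht' e1]

lemma exists_index (g : ℕ → ℕ) (hg : StrictMono g) (b : ℕ) (hb : g 0 ≤ b) :
    ∃ j, g j ≤ b ∧ b < g (j + 1) := by
  have hex : ∃ j, b < g (j + 1) := ⟨b, lt_of_lt_of_le (Nat.lt_succ_self b) (hg.le_apply)⟩
  classical
  refine ⟨Nat.find hex, ?_, Nat.find_spec hex⟩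
  rcases Nat.eq_zero_or_pos (Nat.find hex) with h | h
  · rw [h]; exact hb
  · have := Nat.find_min hex (m := Nat.find hex - 1) (by omega)
    have e : Nat.find hex - 1 + 1 = Nat.find hex := by omega
    rw [e] at this
    omega

/-- the cubic lower bound -/
lemma cubic_bound (a : ℤ) (b : ℕ) (hb : 1 ≤ b) :
    1 ≤ 8 * (b : ℝ) ^ 2 * |(b : ℝ) * alpha - a| := by
  obtain ⟨j, h1, h2⟩ := exists_index (fun j => v j ^ 2)
    (fun i j h => Nat.pow_lt_pow_left (v_strictMono h) two_ne_zero) b (by simpa [v] using hb)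
  have hb0 : (0 : ℤ) < b := by exact_mod_cast hb
  have h2' : (b : ℤ) < q (j + 1) := by simp only [q]; exact_mod_cast h2
  have h1' : (q j : ℝ) ≤ b := by simp only [q]; exact_mod_cast h1
  have h3 := best_approx j a b hb0 h2'
  have h4 := E_ge j
  have h5 : (q (j + 1) : ℝ) ≤ 4 * (q j : ℝ) ^ 2 := by exact_mod_cast q_succ_le j
  have hq : (0 : ℝ) < q j := by exact_mod_cast q_pos j
  have e0 := E_nonneg j
  push_cast at h3
  have h6 : (q j : ℝ) ^ 2 ≤ (b : ℝ) ^ 2 := by gcongr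
  calc (1 : ℝ) ≤ 2 * (q (j + 1) : ℝ) * E j := h4
    _ ≤ 2 * (4 * (b : ℝ) ^ 2) * E j := by gcongr; linarith
    _ ≤ 2 * (4 * (b : ℝ) ^ 2) * |(b : ℝ) * alpha - a| := by gcongr
    _ = _ := by ring

lemma alpha_irrational : Irrational alpha := by
  rintro ⟨r, hr⟩
  have h := cubic_bound r.num r.den r.pos
  have : (r.den : ℝ) * alpha - r.num = 0 := by
    rw [← hr]
    have : ((r.den : ℚ) * r - r.num : ℚ) = 0 := by rw [mul_comm, Rat.mul_den_eq_num]; ring
    exact_mod_cast this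
  rw [this] at h
  norm_num at h

/-- For every `N ≥ 1` there is `w ≥ 1` with `w^4 ≤ N^3` and `N^3 ‖w² α‖² ≤ 1`. -/
lemma exists_square_approx (N : ℕ) (hN : 1 ≤ N) :
    ∃ (w : ℕ) (a : ℤ), 1 ≤ w ∧ w ^ 4 ≤ N ^ 3 ∧ (N : ℝ) ^ 3 * ((w : ℝ) ^ 2 * alpha - a) ^ 2 ≤ 1 := by
  obtain ⟨j, h1, h2⟩ := exists_index (fun j => v j ^ 4)
    (fun i j h => Nat.pow_lt_pow_left (v_strictMono h) (by norm_num)) (N ^ 3)
    (by simpa [v] using Nat.one_le_pow _ _ hN)
  refine ⟨v j, p j, v_pos j, h1, ?_⟩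
  have h3 := abs_err j
  have h4 := E_le j
  have e0 := E_nonneg j
  have h5 : ((v j : ℝ) ^ 2 * alpha - p j) ^ 2 = E j ^ 2 := by
    rw [← h3, sq_abs]; simp [q]
  have h6 : (N : ℝ) ^ 3 ≤ (q (j + 1) : ℝ) ^ 2 := by
    have : N ^ 3 ≤ (v (j + 1) ^ 2) ^ 2 := by rw [← pow_mul]; exact h2.le
    simp only [q]; exact_mod_cast this
  have hq : (0 : ℝ) < q (j + 1) := by exact_mod_cast q_pos (j + 1)
  rw [h5]
  calc (N : ℝ) ^ 3 * E j ^ 2 ≤ (q (j + 1) : ℝ) ^ 2 * E j ^ 2 := by gcongr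
    _ = ((q (j + 1) : ℝ) * E j) ^ 2 := by ring
    _ ≤ 1 ^ 2 := by gcongr
    _ = 1 := by norm_num

end Pool.Agent.MP_ba281e_nt
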